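import Pool.Agent.Y661.NU.Stm

set_option autoImplicit false

open MeasureTheory Filter

namespace Pool.Agent.Y467.NU.LAW

open H974 Pool.Agent.Y661.NU

theorem mem_Fo {a : Edg → ℝ} {t : ℝ} {M : ℕ} {e : Edg} :
    e ∈ Fo a t M ↔ e ∈ boxE M ∧ t < a e := by
  unfold Fo
  simp only [Finset.mem_filter]

theorem Fo_subset (a : Edg → ℝ) (t : ℝ) (M : ℕ) : Fo a t M ⊆ boxE M := by
  intro e he
  exact (mem_Fo.mp he).1

/-- the one-coordinate sets -/
def Cs (t : ℝ) (T : Finset Edg) (e : Edg) : Set ℝ := {x | e ∈ T ↔ t < |x|}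

theorem meas_strong (t : ℝ) : MeasurableSet {x : ℝ | t < |x|} :=
  measurableSet_lt measurable_const continuous_abs.measurable

theorem Cs_of_mem {t : ℝ} {T : Finset Edg} {e : Edg} (h : e ∈ T) :
    Cs t T e = {x | t < |x|} := by
  ext x; simp [Cs, h]

theorem Cs_of_notMem {t : ℝ} {T : Finset Edg} {e : Edg} (h : e ∉ T) :
    Cs t T e = {x | t < |x|}ᶜ := by
  ext x; simp [Cs, h]

theorem meas_Cs (t : ℝ) (T : Finset Edg) (e : Edg) : MeasurableSet (Cs t T e) := by
  by_cases h : e ∈ T
  · rw [Cs_of_mem h]; exact meas_strong t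
  · rw [Cs_of_notMem h]; exact (meas_strong t).compl

theorem Fo_eq_pi {t : ℝ} {M : ℕ} {T : Finset Edg} (hT : T ⊆ boxE M) :
    {J : Edg → ℝ | Fo (fun e => |J e|) t M = T} =
      Set.pi (boxE M : Set Edg) (Cs t T) := by
  ext J
  simp only [Set.mem_setOf_eq, Set.mem_pi, Finset.mem_coe, Cs]
  constructor
  · intro h e he
    rw [← h, mem_Fo]
    exact ⟨fun h => h.2, fun h => ⟨he, h⟩⟩
  · intro h
    ext e
    rw [mem_Fo]
    constructor
    · rintro ⟨h1, h2⟩
      exact (h e h1).mpr h2
    · intro h1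
      exact ⟨hT h1, (h e (hT h1)).mp h1⟩

theorem meas_Fo (t : ℝ) (M : ℕ) (T : Finset Edg) :
    MeasurableSet {J : Edg → ℝ | Fo (fun e => |J e|) t M = T} := by
  by_cases hT : T ⊆ boxE M
  · rw [Fo_eq_pi hT]
    exact MeasurableSet.pi (Finset.countable_toSet _) (fun e _ => meas_Cs t T e)
  · have : {J : Edg → ℝ | Fo (fun e => |J e|) t M = T} = ∅ := by
      ext J
      simp only [Set.mem_setOf_eq, Set.mem_empty_iff_false, iff_false]
      intro h
      exact hT (h ▸ Fo_subset _ _ _)
    rw [this]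
    exact MeasurableSet.empty

theorem law_eq (μ : Measure ℝ) [IsProbabilityMeasure μ] (t : ℝ)
    (ht : μ.real {x | t < |x|} = 1 / 2) {M : ℕ} {T : Finset Edg} (hT : T ⊆ boxE M) :
    (PJ μ).real {J : Edg → ℝ | Fo (fun e => |J e|) t M = T} =
      (∏ _e ∈ T, (1 / 2 : ℝ)) * ∏ _e ∈ boxE M \ T, (1 - (1 / 2 : ℝ)) := by
  classical
  rw [measureReal_def, Fo_eq_pi hT]
  unfold PJ
  rw [Measure.infinitePi_pi _ (fun e _ => meas_Cs t T e), ENNReal.toReal_prod]
  have h1 : ∀ e ∈ boxE M, (μ (Cs t T e)).toReal = if e ∈ T then (1 / 2 : ℝ) else 1 - (1 / 2 : ℝ) := by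
    intro e _
    by_cases he : e ∈ T
    · rw [if_pos he, Cs_of_mem he]
      exact ht
    · rw [if_neg he, Cs_of_notMem he]
      have := probReal_compl_eq_one_sub (μ := μ) (meas_strong t)
      rw [ht] at this
      exact this
  rw [Finset.prod_congr rfl h1, Finset.prod_ite]
  congr 1
  · apply Finset.prod_congr _ (fun _ _ => rfl)
    ext e
    simp only [Finset.mem_filter]
    exact ⟨fun h => h.2, fun h => ⟨hT h, h⟩⟩
  · apply Finset.prod_congr _ (fun _ _ => rfl)
    ext e
    simp only [Finset.mem_filter, Finset.mem_sdiff]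

theorem event_union (t : ℝ) (M : ℕ) (Q : Finset Edg → Prop) [DecidablePred Q] :
    {J : Edg → ℝ | Q (Fo (fun e => |J e|) t M)} =
      ⋃ T ∈ (boxE M).powerset.filter Q, {J : Edg → ℝ | Fo (fun e => |J e|) t M = T} := by
  ext J
  simp only [Set.mem_iUnion, Finset.mem_filter, Finset.mem_powerset]
  constructor
  · intro h
    exact ⟨Fo (fun e => |J e|) t M, ⟨Fo_subset _ _ _, h⟩, rfl⟩
  · rintro ⟨T, ⟨-, hQ⟩, hω⟩
    have hω' : Fo (fun e => |J e|) t M = T := hω
    show Q (Fo (fun e => |J e|) t M)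
    rw [hω']; exact hQ

theorem law : S_LAW := by
  classical
  intro μ _ t ht M Q
  constructor
  · rw [event_union]
    exact Finset.measurableSet_biUnion _ (fun T _ => meas_Fo t M T)
  · rw [event_union, measureReal_biUnion_finset]
    · unfold Pr Ex
      rw [Finset.sum_filter]
      apply Finset.sum_congr rfl
      intro T hT
      show _ = (∏ _e ∈ T, (1 / 2 : ℝ)) * (∏ _e ∈ boxE M \ T, (1 - (1 / 2 : ℝ))) * ind (Q T)
      split_ifs with hQ
      · rw [law_eq μ t ht (Finset.mem_powerset.mp hT), ind_of hQ, mul_one]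
      · rw [ind_not_of hQ, mul_zero]
    · intro T _ T' _ hne
      rw [Function.onFun, Set.disjoint_left]
      intro ω h1 h2
      exact hne ((show Fo (fun e => |ω e|) t M = T from h1).symm.trans
        (show Fo (fun e => |ω e|) t M = T' from h2))
    · intro T _
      exact meas_Fo t M T

/-! ### the median -/

theorem map_abs_singleton (μ : Measure ℝ) (h : ∀ x, μ {x} = 0) (a : ℝ) :
    (μ.map (fun x : ℝ => |x|)) {a} = 0 := by
  rw [Measure.map_apply continuous_abs.measurable (measurableSet_singleton a)]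
  have hs : (fun x : ℝ => |x|) ⁻¹' {a} ⊆ {a} ∪ {-a} := by
    intro x hx
    have hx' : |x| = a := hx
    rcases abs_choice x with h1 | h1
    · left
      show x = a
      rw [← h1, hx']
    · right
      show x = -a
      rw [← hx', h1, neg_neg]
  refine measure_mono_null hs ?_
  exact measure_union_null (h a) (h (-a))

theorem med : S_MED := by
  intro μ _ h
  set ν : Measure ℝ := μ.map (fun x : ℝ => |x|) with hν
  have hm : AEMeasurable (fun x : ℝ => |x|) μ := continuous_abs.measurable.aemeasurable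
  haveI : IsProbabilityMeasure ν := Measure.isProbabilityMeasure_map hm
  have hν0 : ∀ a, ν {a} = 0 := map_abs_singleton μ h
  have hc : Continuous (ProbabilityTheory.cdf ν) := by
    rw [continuous_iff_continuousAt]
    intro a
    have hmono := ProbabilityTheory.monotone_cdf ν
    rw [hmono.continuousAt_iff_leftLim_eq_rightLim]
    have h1 : (ProbabilityTheory.cdf ν).measure {a} = 0 := by
      rw [ProbabilityTheory.measure_cdf]; exact hν0 a
    rw [StieltjesFunction.measure_singleton] at h1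
    have h2 := ENNReal.ofReal_eq_zero.mp h1
    have h3 : Function.leftLim (ProbabilityTheory.cdf ν) a ≤ ProbabilityTheory.cdf ν a :=
      hmono.leftLim_le le_rfl
    have h4 : Function.rightLim (ProbabilityTheory.cdf ν) a = ProbabilityTheory.cdf ν a :=
      StieltjesFunction.rightLim_eq _ _
    rw [h4]
    linarith
  obtain ⟨t, ht⟩ : ∃ t, ProbabilityTheory.cdf ν t = 1 / 2 := by
    have h1 := ProbabilityTheory.tendsto_cdf_atBot ν
    have h2 := ProbabilityTheory.tendsto_cdf_atTop ν
    have e1 : ∃ a, ProbabilityTheory.cdf ν a ≤ 1 / 2 :=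
      ((h1.eventually (ge_mem_nhds (by norm_num : (0 : ℝ) < 1 / 2)))).exists
    have e2 : ∃ b, 1 / 2 ≤ ProbabilityTheory.cdf ν b :=
      ((h2.eventually (le_mem_nhds (by norm_num : (1 / 2 : ℝ) < 1)))).exists
    have := mem_range_of_exists_le_of_exists_ge hc e1 e2
    exact this
  refine ⟨t, ?_⟩
  rw [ProbabilityTheory.cdf_eq_real] at ht
  have h5 : ν.real (Set.Iic t)ᶜ = 1 - ν.real (Set.Iic t) :=
    probReal_compl_eq_one_sub measurableSet_Iic
  rw [ht] at h5
  have h6 : μ.real {x | t < |x|} = ν.real (Set.Iic t)ᶜ := by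
    rw [measureReal_def, measureReal_def, hν, Measure.map_apply continuous_abs.measurable
      measurableSet_Iic.compl]
    congr 2
    ext x
    simp
  rw [h6, h5]
  norm_num

end Pool.Agent.Y467.NU.LAW
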